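import Pool.Agent.helper35.DR.SpecR
import Pool.Agent.helper81.DI.SpecA

set_option autoImplicit false

namespace Pool.Agent.DR

open Pool.Agent.helper58.DC Pool.Agent.DI

theorem RCC_cz {Γ : Type} [Group Γ] (R : Subgroup Γ) : nz R ≤ nz (cz R) := by
  intro x hx
  have hx' : ∀ h, h ∈ R ↔ x * h * x⁻¹ ∈ R := Subgroup.mem_normalizer_iff.1 hx
  have key : ∀ y : Γ, (∀ h ∈ R, x⁻¹ * h * x ∈ R) → y ∈ cz R → x * y * x⁻¹ ∈ cz R := by
    intro y hR hy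
    rw [Subgroup.mem_centralizer_iff] at hy ⊢
    intro h hh
    have h1 := hy (x⁻¹ * h * x) (hR h hh)
    calc h * (x * y * x⁻¹) = x * ((x⁻¹ * h * x) * y) * x⁻¹ := by group
      _ = x * (y * (x⁻¹ * h * x)) * x⁻¹ := by rw [h1]
      _ = x * y * x⁻¹ * h := by group
  have hR : ∀ h ∈ R, x⁻¹ * h * x ∈ R := by
    intro h hh
    rw [hx']
    have : x * (x⁻¹ * h * x) * x⁻¹ = h := by group
    rwa [this]
  refine Subgroup.mem_normalizer_iff.2 fun y => ⟨key y hR, fun hy => ?_⟩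
  change y ∈ cz R
  rw [Subgroup.mem_centralizer_iff]
  change x * y * x⁻¹ ∈ cz R at hy
  rw [Subgroup.mem_centralizer_iff] at hy
  intro h hh
  have h1 := hy (x * h * x⁻¹) ((hx' h).1 hh)
  calc h * y = x⁻¹ * ((x * h * x⁻¹) * (x * y * x⁻¹)) * x := by group
    _ = x⁻¹ * ((x * y * x⁻¹) * (x * h * x⁻¹)) * x := by rw [h1]
    _ = y * h := by group

theorem RCC_inf {Γ : Type} [Group Γ] (G₁ R : Subgroup Γ) (hG : G₁.Normal) :
    nz R ≤ nz (G₁ ⊓ cz R) := by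
  intro x hx
  have h1 : ∀ h, h ∈ cz R ↔ x * h * x⁻¹ ∈ cz R :=
    Subgroup.mem_normalizer_iff.1 (RCC_cz R hx)
  have h2 : ∀ h, h ∈ G₁ ↔ x * h * x⁻¹ ∈ G₁ := by
    intro h
    refine ⟨fun hh => hG.conj_mem h hh x, fun hh => ?_⟩
    have := hG.conj_mem _ hh x⁻¹
    have e : x⁻¹ * (x * h * x⁻¹) * x⁻¹⁻¹ = h := by group
    rwa [e] at this
  refine Subgroup.mem_normalizer_iff.2 fun y => ?_
  change y ∈ G₁ ⊓ cz R ↔ x * y * x⁻¹ ∈ G₁ ⊓ cz R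
  rw [Subgroup.mem_inf, Subgroup.mem_inf, ← h1, ← h2]

theorem RCC (hA2 : A2_stmt) (hA4 : A4_stmt) (hA7 : A7_stmt) (hA8 : A8_stmt) (hA14 : A14_stmt)
    (hRYE : RYE_stmt) (hRYC : RYC_stmt) (hRBL : RBL_stmt) : RCC_stmt := by
  classical
  intro Γ _ _ p _ M hM hpM G₁ G₂ R hG₂ hG₁ hle hcomm hinv hRp hRG hRi hRs τ D hD
  by_cases htop : nz R ⊔ G₂ = ⊤
  · obtain ⟨⟨Y₀, hY₀⟩, hY⟩ := hA2 Γ p (G₁ ⊓ cz R)
    obtain ⟨y1, y2, y3, y4, -⟩ := hY Y₀ hY₀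
    have hnK := RCC_inf G₁ R hG₁
    by_cases hbot : Y₀ = ⊥
    · rw [hbot] at hY₀
      rw [← hA7 Γ p (G₁ ⊓ cz R) ⊥ (nz R) _ hY₀ (inf_le_left.trans hnK)]
      have h8 := hA8 ↥(G₁ ⊓ cz R) Γ p (G₁ ⊓ cz R).subtype (G₁ ⊓ cz R).subtype_injective (nz R)
        (hf p M G₁ G₂ τ D)
      rw [Subgroup.range_subtype] at h8
      rw [← h8]
      obtain ⟨z1, z2, E', _, _, Y, π, π1, π2, π3, π4, π5⟩ :=
        hRYE Γ G₁ G₂ R hG₁ hle hcomm hRG hRi hRs htop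
      have hop : IsOp p (⊤ : Subgroup ↥(G₁ ⊓ cz R)) ⊥ :=
        ((hA14 Γ Γ p (MonoidHom.id Γ) Function.injective_id).2.2 (G₁ ⊓ cz R)).2 hY₀
      have hz := hRBL ↥(G₁ ⊓ cz R) E' (Γ ⧸ G₂) Γ Y (G₁ ⊓ cz R).subtype
        (G₁ ⊓ cz R).subtype_injective p M hM hpM hop hinv G₁ τ
        (D - padicValNat p (Nat.card R)) (by linarith)
      set c : ℤ := (Nat.card R : ℤ) * Nat.card {l : R → ℂˣ // (∀ x y, l (x * y) = l x * l y) ∧
        ∀ m ∈ nz R, ∀ x y : R, (y : Γ) = m * x * m⁻¹ → l y = l x} with hc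
      have h1 : ∀ C ∈ {C : Finset (Subgroup ↥(G₁ ⊓ cz R)) | IsRadical p C},
          (-1 : ℤ) ^ (C.card + 1) *
            hf p M G₁ G₂ τ D (nz R ⊓ nrm (cmap (G₁ ⊓ cz R).subtype C)) =
          c * ((-1 : ℤ) ^ (C.card + 1) * ((Nat.card (nrm C) : ℤ) *
            Nat.card {θ : ↥(G₁ ⊓ cz R) → ℂ // θ ∈ IrrOn (nrm C) ∧
              Defect p (nrm C) θ (D - padicValNat p (Nat.card R)) ∧
              Cov M G₁ τ (ext0 (G₁ ⊓ cz R).subtype θ) ∧ (Y.stab C θ).map Y.proj = ⊤})) := by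
        intro C hC
        have hC' : IsRadical p C := hC
        obtain ⟨P₀, hP₀, -⟩ := hC'.radical
        rw [hRYC Γ p M G₁ G₂ R hG₁ hle hRG hRi z1 z2 E' Y π π1 π2 π3 π4 π5 τ D C hC'.chain
          ⟨P₀, hP₀⟩, ← hc]
        ring
      rw [finsum_mem_congr rfl h1]
      have hfin : {C : Finset (Subgroup ↥(G₁ ⊓ cz R)) | IsRadical p C}.Finite := Set.toFinite _
      rw [finsum_mem_eq_finite_toFinset_sum _ hfin] at hz ⊢
      rw [← Finset.mul_sum, hz, mul_zero]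
    · exact hA4 Γ p (G₁ ⊓ cz R) ⊥ (nz R) Y₀ _ y2 y1 y3 (inf_le_left.trans (hnK.trans y4))
        fun h => hbot (le_bot_iff.1 h)
  · unfold cSum
    refine finsum_mem_eq_zero_of_forall_eq_zero fun C _ => ?_
    have : hf p M G₁ G₂ τ D (nz R ⊓ nrm C) = 0 := by
      unfold hf
      rw [if_neg]
      intro h
      apply htop
      rw [eq_top_iff, ← h]
      exact sup_le_sup_right inf_le_left _
    rw [this, mul_zero]

end Pool.Agent.DR
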