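import Pool.Agent.helper35.DR.SpecC
import Pool.Agent.helper58.DC.Spec1

set_option autoImplicit false

namespace Pool.Agent.DR

open Pool.Agent.helper58.DC Pool.Agent.DI

theorem CFC_funMap {Γ : Type} [Group Γ] (m : Γ) (ψ : Γ → ℂ) (g : Γ) :
    funMap (MulAut.conj m) ψ g = ψ (m⁻¹ * g * m) := by
  simp [funMap]

/-- `stF L ψ` is normalised by `stF M ψ` -/
theorem CFC_norm {Γ : Type} [Group Γ] (L M : Subgroup Γ) (hM : M ≤ nz L) (ψ : Γ → ℂ) (m : Γ)
    (hm : m ∈ stF M ψ) (s : Γ) : m * s * m⁻¹ ∈ stF L ψ ↔ s ∈ stF L ψ := by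
  have hmL : ∀ h, h ∈ L ↔ m * h * m⁻¹ ∈ L := Subgroup.mem_normalizer_iff.1 (hM hm.1)
  have hmψ : ∀ g, ψ (m⁻¹ * g * m) = ψ g := fun g => by
    have := congrFun hm.2 g
    rwa [CFC_funMap] at this
  have hmψ' : ∀ g, ψ (m * g * m⁻¹) = ψ g := fun g => by
    have := hmψ (m * g * m⁻¹)
    rw [← this]
    congr 1
    group
  constructor
  · rintro ⟨h1, h2⟩
    refine ⟨(hmL s).2 h1, funext fun g => ?_⟩
    have h3 := congrFun h2 (m * g * m⁻¹)
    rw [CFC_funMap, hmψ'] at h3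
    rw [CFC_funMap, ← h3]
    rw [← hmψ' (s⁻¹ * g * s)]
    congr 1
    group
  · rintro ⟨h1, h2⟩
    refine ⟨(hmL s).1 h1, funext fun g => ?_⟩
    have h3 := congrFun h2 (m⁻¹ * g * m)
    rw [CFC_funMap, hmψ] at h3
    rw [CFC_funMap, ← h3, ← hmψ' (s⁻¹ * (m⁻¹ * g * m) * s)]
    congr 1
    group

theorem CFC (hIF : IF_stmt) : CFC_stmt := by
  intro Γ _ _ K L M hKL hLM hMK hML ψ
  refine ⟨?_, ?_⟩
  · ext x
    constructor
    · rintro ⟨⟨_, h2⟩, h3⟩
      exact ⟨h3, h2⟩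
    · rintro ⟨h1, h2⟩
      exact ⟨⟨hLM h1, h2⟩, h1⟩
  · intro m hm φ
    refine ⟨?_, ?_⟩
    · funext x
      rw [CFC_funMap]
      unfold indf
      congr 1
      have hmL : ∀ h, h ∈ L ↔ m * h * m⁻¹ ∈ L := Subgroup.mem_normalizer_iff.1 (hML hm.1)
      refine finsum_mem_eq_of_bijOn (fun t => m * t * m⁻¹) ⟨?_, ?_, ?_⟩ ?_
      · intro t ht
        exact (hmL t).1 ht
      · intro t _ t' _ h
        simpa using h
      · intro s hs
        refine ⟨m⁻¹ * s * m, ?_, by group⟩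
        rw [SetLike.mem_coe, hmL]
        have : m * (m⁻¹ * s * m) * m⁻¹ = s := by group
        rwa [this]
      · intro t _
        rw [CFC_funMap]
        congr 1
        group
    · intro hφ
      have h1 := ((hIF Γ (stF L ψ)).2 φ hφ).2.2 (MulAut.conj m)
      have h2 : (stF L ψ).map (MulAut.conj m).toMonoidHom = stF L ψ := by
        ext x
        rw [Subgroup.mem_map]
        constructor
        · rintro ⟨s, hs, rfl⟩
          exact (CFC_norm L M hML ψ m hm s).2 hs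
        · intro hx
          refine ⟨m⁻¹ * x * m, ?_, ?_⟩
          · rw [← CFC_norm L M hML ψ m hm]
            have : m * (m⁻¹ * x * m) * m⁻¹ = x := by group
            rwa [this]
          · change m * (m⁻¹ * x * m) * m⁻¹ = x
            group
      rwa [h2] at h1

end Pool.Agent.DR
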