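import Pool.Agent.helper35.DR.SpecC

set_option autoImplicit false

namespace Pool.Agent.DR

open Pool.Agent.helper58.DC Pool.Agent.DI

theorem CFO_funMap {Γ : Type} [Group Γ] (m : Γ) (ψ : Γ → ℂ) (g : Γ) :
    funMap (MulAut.conj m) ψ g = ψ (m⁻¹ * g * m) := by
  simp [funMap]

theorem CFO : CFO_stmt := by
  classical
  intro Γ _ _ G₁ G₂ N hG₁ hle φ hφ ψ hψ e he hov g hg
  have hOfin : {ψ' : Γ → ℂ | ∃ n ∈ N ⊓ G₂, ψ' = funMap (MulAut.conj n) ψ}.Finite := by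
    refine ((Set.toFinite ((N ⊓ G₂ : Subgroup Γ) : Set Γ)).image
      (fun n => funMap (MulAut.conj n) ψ)).subset ?_
    rintro ψ' ⟨n, hn, rfl⟩
    exact ⟨n, hn, rfl⟩
  have hCfin : (conjugatesOf g).Finite := Set.toFinite _
  set O := {ψ' : Γ → ℂ | ∃ n ∈ N ⊓ G₂, ψ' = funMap (MulAut.conj n) ψ} with hO
  have hval : ∀ x ∈ G₁, φ x = e * ∑ ψ' ∈ hOfin.toFinset, ψ' x := by
    intro x hx
    by_cases hxN : x ∈ N
    · have := hov x ⟨hxN, hx⟩
      rwa [finsum_mem_eq_finite_toFinset_sum _ hOfin] at this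
    · rw [hφ.1 x fun h => hxN h.1]
      have : ∀ ψ' ∈ hOfin.toFinset, ψ' x = 0 := by
        intro ψ' hψ'
        obtain ⟨n, hn, rfl⟩ := hOfin.mem_toFinset.1 hψ'
        rw [CFO_funMap]
        refine hψ.1 _ fun h => hxN ?_
        have h2 : n * (n⁻¹ * x * n) * n⁻¹ ∈ N := N.mul_mem (N.mul_mem hn.1 h.1) (N.inv_mem hn.1)
        have h3 : n * (n⁻¹ * x * n) * n⁻¹ = x := by group
        rwa [h3] at h2
      rw [Finset.sum_eq_zero this, mul_zero]
  have hcl : ∀ x ∈ conjugatesOf g, x ∈ G₁ := by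
    intro x hx
    obtain ⟨c, hc⟩ := isConj_iff.1 (show IsConj g x from hx)
    rw [← hc]
    exact hG₁.conj_mem g hg c
  have hS : ∀ ψ' ∈ hOfin.toFinset, ∑ x ∈ hCfin.toFinset, ψ' x = ∑ x ∈ hCfin.toFinset, ψ x := by
    intro ψ' hψ'
    obtain ⟨n, hn, rfl⟩ := hOfin.mem_toFinset.1 hψ'
    refine Finset.sum_equiv (MulAut.conj n⁻¹).toEquiv ?_ ?_
    · intro x
      rw [hCfin.mem_toFinset, hCfin.mem_toFinset]
      change IsConj g x ↔ IsConj g ((MulAut.conj n⁻¹).toEquiv x)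
      have h1 : IsConj x ((MulAut.conj n⁻¹).toEquiv x) := isConj_iff.2 ⟨n⁻¹, by simp⟩
      exact ⟨fun h => h.trans h1, fun h => h.trans h1.symm⟩
    · intro x _
      rw [CFO_funMap]
      congr 1
      simp
  have h1 : φ 1 = e * (hOfin.toFinset.card * ψ 1) := by
    rw [hval 1 G₁.one_mem]
    congr 1
    have : ∀ ψ' ∈ hOfin.toFinset, ψ' 1 = ψ 1 := by
      intro ψ' hψ'
      obtain ⟨n, hn, rfl⟩ := hOfin.mem_toFinset.1 hψ'
      rw [CFO_funMap]
      congr 1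
      group
    rw [Finset.sum_congr rfl this, Finset.sum_const, nsmul_eq_mul]
  have h2 : ∑ᶠ x ∈ conjugatesOf g, φ x
      = e * (hOfin.toFinset.card * ∑ᶠ x ∈ conjugatesOf g, ψ x) := by
    rw [finsum_mem_eq_finite_toFinset_sum _ hCfin, finsum_mem_eq_finite_toFinset_sum _ hCfin,
      Finset.sum_congr rfl fun x hx => hval x (hcl x (hCfin.mem_toFinset.1 hx)), ← Finset.mul_sum,
      Finset.sum_comm, Finset.sum_congr rfl hS, Finset.sum_const, nsmul_eq_mul]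
  have hne : (e : ℂ) * hOfin.toFinset.card ≠ 0 := by
    have h3 : hOfin.toFinset.card ≠ 0 := by
      rw [Finset.card_ne_zero]
      refine ⟨ψ, hOfin.mem_toFinset.2 ⟨1, (N ⊓ G₂).one_mem, ?_⟩⟩
      funext x
      rw [CFO_funMap]
      congr 1
      group
    have h4 : (e : ℂ) ≠ 0 := by exact_mod_cast he.ne'
    have h5 : (hOfin.toFinset.card : ℂ) ≠ 0 := by exact_mod_cast h3
    exact mul_ne_zero h4 h5
  unfold omega
  rw [h1, h2, ← mul_assoc, ← mul_assoc, mul_div_mul_left _ _ hne]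

end Pool.Agent.DR
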