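import Pool.Agent.helper35.DR.SpecC
import Pool.Agent.helper81.DI.SpecB
import Pool.Agent.helper58.DC.Spec1

set_option autoImplicit false

namespace Pool.Agent.DR

open Pool.Agent.helper58.DC Pool.Agent.DI

section

variable {Γ : Type} [Group Γ]

/-- restriction of functions -/
def CRE_res (L : Subgroup Γ) (φ : Γ → ℂ) : L → ℂ := fun l => φ (l : Γ)

open Classical in
/-- extension by zero -/
noncomputable def CRE_ext (L : Subgroup Γ) (f : L → ℂ) : Γ → ℂ :=
  fun g => if h : g ∈ L then f ⟨g, h⟩ else 0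

theorem CRE_res_ext (L : Subgroup Γ) (f : L → ℂ) : CRE_res L (CRE_ext L f) = f := by
  funext l
  simp [CRE_res, CRE_ext]

theorem CRE_bij_top (L : Subgroup Γ) : Set.BijOn (CRE_res L) (IrrOn L) (Irr L) := by
  refine ⟨fun φ hφ => hφ.2, ?_, ?_⟩
  · intro φ hφ ψ hψ h
    funext g
    by_cases hg : g ∈ L
    · exact congrFun h ⟨g, hg⟩
    · rw [hφ.1 g hg, hψ.1 g hg]
  · intro f hf
    refine ⟨CRE_ext L f, ⟨fun g hg => by simp [CRE_ext, hg], ?_⟩, CRE_res_ext L f⟩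
    have := CRE_res_ext L f
    unfold CRE_res at this
    rw [this]
    exact hf

theorem CRE_bij_sub (hIRT : IRT_stmt) (L S : Subgroup Γ) (hSL : S ≤ L) :
    Set.BijOn (CRE_res L) (IrrOn S) (IrrOn (S.subgroupOf L)) := by
  refine ⟨?_, ?_, ?_⟩
  · intro θ hθ
    refine ⟨fun l hl => hθ.1 _ fun h => hl (Subgroup.mem_subgroupOf.2 h), ?_⟩
    exact hIRT (S.subgroupOf L) S (Subgroup.subgroupOfEquivOfLe hSL) _ hθ.2
  · intro φ hφ ψ hψ h
    funext g
    by_cases hg : g ∈ L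
    · exact congrFun h ⟨g, hg⟩
    · rw [hφ.1 g fun h => hg (hSL h), hψ.1 g fun h => hg (hSL h)]
  · intro f hf
    refine ⟨CRE_ext L f, ⟨?_, ?_⟩, CRE_res_ext L f⟩
    · intro g hg
      by_cases h : g ∈ L
      · simp only [CRE_ext, h, dite_true]
        exact hf.1 ⟨g, h⟩ fun h' => hg (Subgroup.mem_subgroupOf.1 h')
      · simp [CRE_ext, h]
    · have h1 := hIRT S (S.subgroupOf L) (Subgroup.subgroupOfEquivOfLe hSL).symm _ hf.2
      have h2 : (fun h : S => CRE_ext L f (h : Γ)) = fun h : S =>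
          f (((Subgroup.subgroupOfEquivOfLe hSL).symm h : S.subgroupOf L) : L) := by
        funext h
        have : (h : Γ) ∈ L := hSL h.2
        simp only [CRE_ext, this, dite_true]
        rfl
      rw [h2]
      exact h1

theorem CRE_fin [Fintype Γ] (s : Subgroup Γ) [DecidablePred (· ∈ s)] (f : Γ → ℂ) :
    ∑ᶠ t ∈ (s : Set Γ), f t = ∑ t, if t ∈ s then f t else 0 := by
  classical
  rw [finsum_mem_def, finsum_eq_sum_of_fintype]
  refine Finset.sum_congr rfl fun t _ => ?_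
  by_cases h : t ∈ s <;> simp [h]

end

theorem CRE (hB2 : B2_stmt) (hB3 : B3_stmt) (hB9a : B9a_stmt) (hIRT : IRT_stmt) : CRE_stmt := by
  classical
  intro Γ _ _ L S hSL
  have := Fintype.ofFinite Γ
  obtain ⟨hfinS, hBS⟩ := hB2 Γ S
  obtain ⟨hfinL, hBL⟩ := hB2 Γ L
  choose! m₀ hm₀ using hB3 L (S.subgroupOf L)
  have b1 := CRE_bij_top L
  have b2 := CRE_bij_sub hIRT L S hSL
  -- (1)
  have P1 : ∀ φ ∈ IrrOn L, ∀ x ∈ S, φ x
      = ∑ᶠ θ ∈ IrrOn S, (m₀ (CRE_res L φ) (CRE_res L θ) : ℂ) * θ x := by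
    intro φ hφ x hx
    have h := hm₀ (CRE_res L φ) (b1.mapsTo hφ) ⟨x, hSL hx⟩ (Subgroup.mem_subgroupOf.2 hx)
    have h2 : ∑ᶠ θ ∈ IrrOn S, (m₀ (CRE_res L φ) (CRE_res L θ) : ℂ) * θ x
        = ∑ᶠ ψ ∈ IrrOn (S.subgroupOf L), (m₀ (CRE_res L φ) ψ : ℂ) * ψ ⟨x, hSL hx⟩ :=
      finsum_mem_eq_of_bijOn (CRE_res L) b2 fun θ _ => rfl
    rw [h2, ← h]
    rfl
  -- orthogonality relations
  have hcS : (Nat.card S : ℂ) ≠ 0 := by
    have : Nat.card S ≠ 0 := Nat.card_pos.ne'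
    exact_mod_cast this
  have hcL : (Nat.card L : ℂ) ≠ 0 := by
    have : Nat.card L ≠ 0 := Nat.card_pos.ne'
    exact_mod_cast this
  have coef : ∀ (K : Subgroup Γ) (a : (Γ → ℂ) → ℂ) (θ₀ : Γ → ℂ), θ₀ ∈ IrrOn K →
      ∑ x : Γ, (∑ᶠ θ ∈ IrrOn K, a θ * θ x) * θ₀ x⁻¹ = a θ₀ * Nat.card K := by
    intro K a θ₀ h₀
    obtain ⟨hfin, hB⟩ := hB2 Γ K
    have h1 : ∀ x : Γ, (∑ᶠ θ ∈ IrrOn K, a θ * θ x) * θ₀ x⁻¹
        = ∑ θ ∈ hfin.toFinset, a θ * (θ x * θ₀ x⁻¹) := by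
      intro x
      rw [finsum_mem_eq_finite_toFinset_sum _ hfin, Finset.sum_mul]
      exact Finset.sum_congr rfl fun θ _ => by ring
    simp only [h1]
    rw [Finset.sum_comm]
    have h2 : ∀ θ ∈ hfin.toFinset, ∑ x : Γ, a θ * (θ x * θ₀ x⁻¹)
        = if θ = θ₀ then a θ * Nat.card K else 0 := by
      intro θ hθ
      have hθ' : θ ∈ IrrOn K := hfin.mem_toFinset.1 hθ
      have := (hB θ hθ').2.2.2.2 θ₀ h₀
      rw [finsum_eq_sum_of_fintype] at this
      rw [← Finset.mul_sum, this]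
      split_ifs <;> simp
    rw [Finset.sum_congr rfl h2, Finset.sum_ite_eq' hfin.toFinset θ₀ (fun θ => a θ * Nat.card K),
      if_pos (hfin.mem_toFinset.2 h₀)]
  -- the full sum
  have P3' : ∀ φ ∈ IrrOn L, ∀ θ ∈ IrrOn S, ∑ x : Γ, φ x * θ x⁻¹
      = (Nat.card S : ℂ) * m₀ (CRE_res L φ) (CRE_res L θ) := by
    intro φ hφ θ hθ
    have h1 := coef S (fun θ' => (m₀ (CRE_res L φ) (CRE_res L θ') : ℂ)) θ hθ
    rw [mul_comm, ← h1]
    refine Finset.sum_congr rfl fun x _ => ?_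
    by_cases hx : x ∈ S
    · rw [← P1 φ hφ x hx]
    · have : x⁻¹ ∉ S := fun h => hx (by simpa using S.inv_mem h)
      rw [hθ.1 _ this, mul_zero, mul_zero]
  refine ⟨fun φ θ => m₀ (CRE_res L φ) (CRE_res L θ), P1, ?_, ?_⟩
  · -- (2)
    intro θ hθ
    obtain ⟨m', hm'⟩ := hB9a L (S.subgroupOf L) (CRE_res L θ) (b2.mapsTo hθ)
    have hcard : Nat.card (S.subgroupOf L) = Nat.card S :=
      Nat.card_congr (Subgroup.subgroupOfEquivOfLe hSL).toEquiv
    have Q : ∀ x : Γ, indf L S θ x = ∑ᶠ φ ∈ IrrOn L, (m' (CRE_res L φ) : ℂ) * φ x := by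
      intro x
      by_cases hx : x ∈ L
      · have h := hm' ⟨x, hx⟩
        have h2 : ∑ᶠ φ ∈ IrrOn L, (m' (CRE_res L φ) : ℂ) * φ x
            = ∑ᶠ f ∈ Irr L, (m' f : ℂ) * f ⟨x, hx⟩ :=
          finsum_mem_eq_of_bijOn (CRE_res L) b1 fun φ _ => rfl
        rw [h2, ← h, hcard]
        unfold indf
        congr 1
        exact (finsum_set_coe_eq_finsum_mem (L : Set Γ)).symm
      · have h2 : ∑ᶠ φ ∈ IrrOn L, (m' (CRE_res L φ) : ℂ) * φ x = 0 :=
          finsum_mem_eq_zero_of_forall_eq_zero fun φ hφ => by rw [hφ.1 x hx, mul_zero]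
        rw [h2]
        unfold indf
        have h3 : ∑ᶠ t ∈ (L : Set Γ), θ (t⁻¹ * x * t) = 0 := by
          refine finsum_mem_eq_zero_of_forall_eq_zero fun t ht => ?_
          refine hθ.1 _ fun h => hx ?_
          have h4 : t * (t⁻¹ * x * t) * t⁻¹ ∈ L :=
            L.mul_mem (L.mul_mem ht (hSL h)) (L.inv_mem ht)
          have h5 : t * (t⁻¹ * x * t) * t⁻¹ = x := by group
          rwa [h5] at h4
        rw [h3, mul_zero]
    have hmm : ∀ φ ∈ IrrOn L, (m' (CRE_res L φ) : ℂ) = m₀ (CRE_res L φ) (CRE_res L θ) := by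
      intro φ hφ
      have h1 := coef L (fun φ' => (m' (CRE_res L φ') : ℂ)) φ hφ
      have hcl := (hBL φ hφ).2.1
      have h2 : ∑ x : Γ, indf L S θ x * φ x⁻¹
          = (m₀ (CRE_res L φ) (CRE_res L θ) : ℂ) * Nat.card L := by
        have e1 : ∀ x : Γ, indf L S θ x * φ x⁻¹ = ∑ t : Γ,
            (Nat.card S : ℂ)⁻¹ * (if t ∈ L then θ (t⁻¹ * x * t) * φ x⁻¹ else 0) := by
          intro x
          unfold indf
          rw [CRE_fin, mul_assoc, Finset.sum_mul, Finset.mul_sum]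
          refine Finset.sum_congr rfl fun t _ => ?_
          split_ifs <;> simp
        simp only [e1]
        rw [Finset.sum_comm]
        have e2 : ∀ t : Γ, ∑ x : Γ, (Nat.card S : ℂ)⁻¹ *
            (if t ∈ L then θ (t⁻¹ * x * t) * φ x⁻¹ else 0)
            = if t ∈ L then (m₀ (CRE_res L φ) (CRE_res L θ) : ℂ) else 0 := by
          intro t
          by_cases ht : t ∈ L
          · simp only [ht, if_true]
            rw [← Finset.mul_sum]
            have e3 : ∑ x : Γ, θ (t⁻¹ * x * t) * φ x⁻¹ = ∑ y : Γ, φ y * θ y⁻¹ := by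
              refine Fintype.sum_equiv ((MulAut.conj t⁻¹).toEquiv.trans (Equiv.inv Γ)) _ _ fun x => ?_
              have e4 : ((MulAut.conj t⁻¹).toEquiv.trans (Equiv.inv Γ)) x = (t⁻¹ * x * t)⁻¹ := by
                simp
              rw [e4, inv_inv, mul_comm]
              congr 1
              have e5 : (t⁻¹ * x * t)⁻¹ = t⁻¹ * x⁻¹ * (t⁻¹)⁻¹ := by group
              rw [e5, hcl x⁻¹ t⁻¹ (L.inv_mem ht)]
            rw [e3, P3' φ hφ θ hθ]
            field_simp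
          · simp [ht]
        simp only [e2]
        rw [← Finset.sum_filter, Finset.sum_const, nsmul_eq_mul, mul_comm]
        congr 2
        rw [Nat.card_eq_fintype_card, Fintype.card_subtype]
      have h3 : (m' (CRE_res L φ) : ℂ) * Nat.card L
          = (m₀ (CRE_res L φ) (CRE_res L θ) : ℂ) * Nat.card L := by
        rw [← h2, ← h1]
        exact Finset.sum_congr rfl fun x _ => by rw [Q x]
      exact mul_right_cancel₀ hcL h3
    intro x
    rw [Q x]
    exact finsum_mem_congr rfl fun φ hφ => by rw [hmm φ hφ]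
  · -- (3)
    intro φ hφ θ hθ
    rw [← P3' φ hφ θ hθ, CRE_fin]
    refine Finset.sum_congr rfl fun x _ => ?_
    by_cases hx : x ∈ S
    · simp [hx]
    · have : x⁻¹ ∉ S := fun h => hx (by simpa using S.inv_mem h)
      rw [if_neg hx, hθ.1 _ this, mul_zero]

end Pool.Agent.DR
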