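import Pool.Agent.helper35.DR.SpecC
import Pool.Agent.helper81.DI.SpecB

set_option autoImplicit false

namespace Pool.Agent.DR

open Pool.Agent.helper58.DC Pool.Agent.DI

/-- orthogonality: the coefficient of `θ₀` in a combination of irreducible characters -/
theorem CUQ_coef (hB2 : B2_stmt) (Γ : Type) [Group Γ] [Finite Γ] (K : Subgroup Γ)
    (a : (Γ → ℂ) → ℂ) (θ₀ : Γ → ℂ) (h₀ : θ₀ ∈ IrrOn K) :
    ∑ᶠ x : Γ, (∑ᶠ θ ∈ IrrOn K, a θ * θ x) * θ₀ x⁻¹ = a θ₀ * Nat.card K := by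
  classical
  haveI := Fintype.ofFinite Γ
  obtain ⟨hfin, hB⟩ := hB2 Γ K
  have h1 : ∀ x : Γ, (∑ᶠ θ ∈ IrrOn K, a θ * θ x) * θ₀ x⁻¹
      = ∑ θ ∈ hfin.toFinset, a θ * (θ x * θ₀ x⁻¹) := by
    intro x
    rw [finsum_mem_eq_finite_toFinset_sum _ hfin, Finset.sum_mul]
    exact Finset.sum_congr rfl fun θ _ => by ring
  simp only [h1]
  rw [finsum_eq_sum_of_fintype, Finset.sum_comm]
  have h2 : ∀ θ ∈ hfin.toFinset, ∑ x : Γ, a θ * (θ x * θ₀ x⁻¹)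
      = if θ = θ₀ then a θ * Nat.card K else 0 := by
    intro θ hθ
    have hθ' : θ ∈ IrrOn K := hfin.mem_toFinset.1 hθ
    have := (hB θ hθ').2.2.2.2 θ₀ h₀
    rw [finsum_eq_sum_of_fintype] at this
    rw [← Finset.mul_sum, this]
    split_ifs <;> simp
  rw [Finset.sum_congr rfl h2, Finset.sum_ite_eq' hfin.toFinset θ₀ (fun θ => a θ * Nat.card K),
    if_pos (hfin.mem_toFinset.2 h₀)]

/-- a combination of characters of `K` vanishes outside `K` -/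
theorem CUQ_zero (Γ : Type) [Group Γ] (K : Subgroup Γ) (a : (Γ → ℂ) → ℂ) (x : Γ) (hx : x ∉ K) :
    ∑ᶠ θ ∈ IrrOn K, a θ * θ x = 0 := by
  have : ∀ θ ∈ IrrOn K, a θ * θ x = 0 := fun θ hθ => by rw [hθ.1 x hx, mul_zero]
  exact finsum_mem_eq_zero_of_forall_eq_zero this

theorem CUQ (hB2 : B2_stmt) : CUQ_stmt := by
  intro Γ _ _ K a b hab θ₀ h₀
  have h1 := CUQ_coef hB2 Γ K a θ₀ h₀
  have h2 := CUQ_coef hB2 Γ K b θ₀ h₀
  have h3 : ∀ x : Γ, ∑ᶠ θ ∈ IrrOn K, a θ * θ x = ∑ᶠ θ ∈ IrrOn K, b θ * θ x := by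
    intro x
    by_cases hx : x ∈ K
    · exact hab x hx
    · rw [CUQ_zero Γ K a x hx, CUQ_zero Γ K b x hx]
  simp only [h3] at h1
  rw [h1] at h2
  have hc : (Nat.card K : ℂ) ≠ 0 := by
    have : Nat.card K ≠ 0 := Nat.card_pos.ne'
    exact_mod_cast this
  exact mul_right_cancel₀ hc h2

end Pool.Agent.DR
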