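import Pool.Agent.helper35.DR.SpecA

set_option autoImplicit false

namespace Pool.Agent.DR

open Pool.Agent.helper58.DC Pool.Agent.DI

theorem GMN : GMN_stmt := by
  intro A _ _ N hN
  have hcard : Nat.card N ≠ 1 := by
    intro h
    exact hN.ne (Subgroup.card_eq_one.1 h)
  obtain ⟨r, hr, hrd⟩ := Nat.exists_prime_and_dvd hcard
  have := Fact.mk hr
  let K : Subgroup A :=
    { carrier := {x | x ∈ N ∧ x ^ r = 1}
      mul_mem' := by
        rintro x y ⟨hx, hx'⟩ ⟨hy, hy'⟩
        refine ⟨N.mul_mem hx hy, ?_⟩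
        have hc : Commute x y := hN.comm x hx y hy
        rw [hc.mul_pow, hx', hy', one_mul]
      one_mem' := ⟨N.one_mem, one_pow _⟩
      inv_mem' := by
        rintro x ⟨hx, hx'⟩
        exact ⟨N.inv_mem hx, by rw [inv_pow, hx', inv_one]⟩ }
  have hKN : K ≤ N := fun x hx => hx.1
  have hKnor : K.Normal := by
    refine ⟨fun x hx g => ?_⟩
    refine ⟨hN.nor.conj_mem x hx.1 g, ?_⟩
    rw [conj_pow, hx.2, mul_one, mul_inv_cancel]
  have hK : K = N := by
    rcases hN.min K hKnor hKN with h | h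
    · exfalso
      obtain ⟨x, hx⟩ := exists_prime_orderOf_dvd_card' r hrd
      have hxK : (x : A) ∈ K := by
        refine ⟨x.2, ?_⟩
        have := pow_orderOf_eq_one x
        rw [hx] at this
        exact congrArg Subtype.val this
      rw [h, Subgroup.mem_bot] at hxK
      have : x = 1 := Subtype.ext hxK
      rw [this, orderOf_one] at hx
      exact hr.ne_one hx.symm
    · exact h
  have hpow : ∀ x ∈ N, x ^ r = 1 := by
    intro x hx
    rw [← hK] at hx
    exact hx.2
  refine ⟨r, hr, hpow, ?_⟩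
  have hP : IsPGroup r N := by
    intro x
    refine ⟨1, ?_⟩
    rw [pow_one]
    exact Subtype.ext (hpow x x.2)
  obtain ⟨k, hk⟩ := IsPGroup.iff_card.1 hP
  refine ⟨k, ?_, hk⟩
  by_contra h0
  have : k = 0 := by omega
  rw [this, pow_zero] at hk
  exact hcard hk

end Pool.Agent.DR
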