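import Pool.Agent.helper35.DR.SpecP

set_option autoImplicit false

namespace Pool.Agent.DR

open Pool.Agent.helper58.DC Pool.Agent.DI

theorem PCH_sign (n : ℕ) (hn : 1 ≤ n) : (-1 : ℤ) ^ (n + 1) = (-1) ^ (n - 1) := by
  obtain ⟨k, rfl⟩ := Nat.exists_eq_add_of_le hn
  rw [show 1 + k + 1 = k + 2 by ring, show 1 + k - 1 = k by omega, pow_add]
  norm_num

theorem PCH (hAS : AS_stmt) (hAU : AU_stmt) (hAX : AX_stmt) (hPSG : PSG_stmt) : PCH_stmt := by
  classical
  intro G T _ _ _ p _ hOp Φ Φ' hΦ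
  set P : Set ((T → Finset (Subgroup G)) × Finset (T → ℕ)) :=
    {x | (∀ t, IsRadical p (x.1 t)) ∧ IsPath (fun t => (x.1 t).card - 1) x.2} with hP
  have hbij : Set.BijOn (fun x : (T → Finset (Subgroup G)) × Finset (T → ℕ) => asmC x.1 x.2) P
      {C' : Finset (Subgroup (T → G)) | IsRadical p C'} := by
    refine ⟨?_, ?_, ?_⟩
    · rintro ⟨C, W⟩ ⟨h1, h2⟩
      exact (hAS G T p hOp C h1 W h2).1
    · rintro ⟨C, W⟩ ⟨h1, h2⟩ ⟨D, V⟩ ⟨h3, h4⟩ h
      obtain ⟨h5, h6⟩ := hAU G T p hOp C D h1 h3 W V h2 h4 h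
      rw [h5, h6]
    · intro C' hC'
      obtain ⟨C, W, h1, h2, h3⟩ := hAX G T p hOp C' hC'
      exact ⟨(C, W), ⟨h1, h2⟩, h3⟩
  have hfinC : {C' : Finset (Subgroup (T → G)) | IsRadical p C'}.Finite := Set.toFinite _
  have hPfin : P.Finite := by
    have := hbij.image_eq
    rw [← this] at hfinC
    exact Set.Finite.of_finite_image hfinC hbij.injOn
  have e1 : ∑ᶠ C' ∈ {C' : Finset (Subgroup (T → G)) | IsRadical p C'},
      (-1 : ℤ) ^ (C'.card + 1) * Φ C' = ∑ᶠ x ∈ P, (-1 : ℤ) ^ (x.2.card + 1) * Φ' x.1 := by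
    refine (finsum_mem_eq_of_bijOn _ hbij ?_).symm
    rintro ⟨C, W⟩ ⟨h1, h2⟩
    simp only
    rw [(hAS G T p hOp C h1 W h2).2.1, hΦ C h1 W h2]
  rw [e1]
  have hsupp : (Function.support fun x : (T → Finset (Subgroup G)) × Finset (T → ℕ) =>
      ∑ᶠ (_ : x ∈ P), (-1 : ℤ) ^ (x.2.card + 1) * Φ' x.1).Finite := by
    refine hPfin.subset fun x hx => ?_
    by_contra h
    exact hx (by simp [h])
  rw [finsum_curry _ hsupp]
  refine finsum_congr fun C => ?_
  by_cases hC : ∀ t, IsRadical p (C t)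
  · have hfinW : {W : Finset (T → ℕ) | IsPath (fun t => (C t).card - 1) W}.Finite := by
      refine (hPfin.preimage (f := fun W => (C, W)) (fun a _ b _ h => (Prod.ext_iff.1 h).2)).subset ?_
      intro W hW
      exact ⟨hC, hW⟩
    have e2 : ∀ W : Finset (T → ℕ), (∑ᶠ (_ : (C, W) ∈ P), (-1 : ℤ) ^ (W.card + 1) * Φ' C)
        = (∑ᶠ (_ : IsPath (fun t => (C t).card - 1) W), (-1 : ℤ) ^ (W.card - 1)) * Φ' C := by
      intro W
      by_cases hW : IsPath (fun t => (C t).card - 1) W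
      · have h1 : (C, W) ∈ P := ⟨hC, hW⟩
        rw [finsum_eq_if, finsum_eq_if, if_pos h1, if_pos hW, PCH_sign]
        exact Finset.card_pos.2 hW.1
      · have h1 : (C, W) ∉ P := fun h => hW h.2
        rw [finsum_eq_if, finsum_eq_if, if_neg h1, if_neg hW, zero_mul]
    simp only [e2]
    have hs2 : (Function.support fun W : Finset (T → ℕ) =>
        ∑ᶠ (_ : IsPath (fun t => (C t).card - 1) W), (-1 : ℤ) ^ (W.card - 1)).Finite := by
      refine hfinW.subset fun W hW => ?_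
      by_contra h
      refine hW ?_
      have h' : ¬ IsPath (fun t => (C t).card - 1) W := h
      simp only
      rw [finsum_eq_if, if_neg h']
    rw [← finsum_mul]
    have e3 : (∑ᶠ (W : Finset (T → ℕ)) (_ : IsPath (fun t => (C t).card - 1) W),
        (-1 : ℤ) ^ (W.card - 1)) = ∏ t, (-1 : ℤ) ^ ((C t).card - 1) := by
      rw [← hPSG T (fun t => (C t).card - 1)]
      exact (finsum_subtype_eq_finsum_cond (f := fun W : Finset (T → ℕ) => (-1 : ℤ) ^ (W.card - 1))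
        (IsPath (fun t => (C t).card - 1))).symm
    rw [e3]
    have h1 : C ∈ {C : T → Finset (Subgroup G) | ∀ t, IsRadical p (C t)} := hC
    rw [finsum_eq_if, if_pos h1]
    congr 1
    refine Finset.prod_congr rfl fun t _ => ?_
    rw [PCH_sign]
    obtain ⟨P₀, hP₀, -⟩ := (hC t).radical
    exact Finset.card_pos.2 ⟨P₀, hP₀⟩
  · have h1 : C ∉ {C : T → Finset (Subgroup G) | ∀ t, IsRadical p (C t)} := hC
    rw [finsum_eq_if, if_neg h1]
    have : ∀ W : Finset (T → ℕ), (∑ᶠ (_ : (C, W) ∈ P), (-1 : ℤ) ^ (W.card + 1) * Φ' C) = 0 := by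
      intro W
      have h2 : (C, W) ∉ P := fun h => hC h.1
      rw [finsum_eq_if, if_neg h2]
    simp only [this, finsum_zero]

end Pool.Agent.DR
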